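import Pool.Agent.Lib.helper15.GH3

set_option autoImplicit false

open Set Metric GromovHausdorff

namespace Pool.Agent.Results.MP_975509_gt.Counter

open Pool.Agent.Lib.helper15.GH3

lemma le_one {D D' : Fin 3 → Fin 3 → ℤ} {h : Good D} {h' : Good D'}
    (H : ∀ x y, |D x y - D' x y| ≤ 2) : ghDist (Sp D h) (Sp D' h') ≤ 1 := by
  have := ghDist_le_of_approx_subsets (X := Sp D h) (Y := Sp D' h') (s := univ) (fun x => x.1)
    (ε₁ := 0) (ε₂ := 2) (ε₃ := 0) (fun x => ⟨x, trivial, by simp⟩)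
    (fun x => ⟨⟨x, trivial⟩, (dist_self (α := Sp D' h') x).le⟩) fun x y => by
      show |(D x.1 y.1 : ℝ) - D' x.1 y.1| ≤ 2
      exact_mod_cast H x.1 y.1
  linarith

theorem result :
    ∃ (X₁ X₂ X₃ : Type) (_ : MetricSpace X₁) (_ : MetricSpace X₂) (_ : MetricSpace X₃)
      (_ : CompactSpace X₁) (_ : CompactSpace X₂) (_ : CompactSpace X₃)
      (_ : Nonempty X₁) (_ : Nonempty X₂) (_ : Nonempty X₃),
      ∀ (Z : Type) [MetricSpace Z] (φ₁ : X₁ → Z) (φ₂ : X₂ → Z) (φ₃ : X₃ → Z),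
        Isometry φ₁ → Isometry φ₂ → Isometry φ₃ →
        ghDist X₁ X₂ < hausdorffDist (range φ₁) (range φ₂) ∨
        ghDist X₁ X₃ < hausdorffDist (range φ₁) (range φ₃) ∨
        ghDist X₂ X₃ < hausdorffDist (range φ₂) (range φ₃) := by
  refine ⟨Sp A1 a1, Sp A2 a2, Sp A3 a3, inferInstance, inferInstance, inferInstance, inferInstance,
    inferInstance, inferInstance, inferInstance, inferInstance, inferInstance,
    fun Z _ φ₁ φ₂ φ₃ h1 h2 h3 => ?_⟩
  by_contra e
  simp only [not_or, not_lt] at e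
  exact noH h1 h2 h3 (e.1.trans (le_one (by decide))) (e.2.1.trans (le_one (by decide)))
    (e.2.2.trans (le_one (by decide)))

end Pool.Agent.Results.MP_975509_gt.Counter
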